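import Pool.Agent.H723.LZM.Prog
import Pool.Graph.R_seed8.H261R2.CM.L2

/-!
# Compressible polynomials: coefficients, Mahler measure and the integral of `log⁺ |f|`
-/

set_option autoImplicit false

namespace Pool.Agent.H723.LZM

open Polynomial Finset
open Pool.Agent.H261R2.CM (m1 len mx1 ev1 ez toC)

lemma coeff_cyc_mul_le {d : ℕ} {s : ℤ} (hs : s = 1 ∨ s = -1) {f : ℤ[X]} {H : ℤ}
    (h : ∀ t, |f.coeff t| ≤ H) (t : ℕ) : |(cyc d s * f).coeff t| ≤ 2 * H := by
  have h0 : 0 ≤ H := (abs_nonneg _).trans (h 0)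
  unfold cyc
  rw [sub_mul, one_mul, coeff_sub, mul_assoc, coeff_C_mul, coeff_X_pow_mul']
  have h1 := h t
  have h2 : |s * (if d ≤ t then f.coeff (t - d) else 0)| ≤ H := by
    split_ifs with hd
    · rcases hs with rfl | rfl
      · simpa using h (t - d)
      · simpa using h (t - d)
    · simpa using h0
  calc |f.coeff t - s * (if d ≤ t then f.coeff (t - d) else 0)|
      ≤ |f.coeff t| + |s * (if d ≤ t then f.coeff (t - d) else 0)| := abs_sub _ _
    _ ≤ 2 * H := by linarith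

lemma Cyc.coeff_mul_le {r : ℕ} {D : ℤ[X]} (hD : Cyc r D) : ∀ {f : ℤ[X]} {H : ℤ},
    (∀ t, |f.coeff t| ≤ H) → ∀ t, |(D * f).coeff t| ≤ 2 ^ r * H := by
  induction hD with
  | one =>
    intro f H h t
    simpa using h t
  | mul r D d s hd hs hD ih =>
    intro f H h t
    have h1 := ih (f := cyc d s * f) (H := 2 * H) (coeff_cyc_mul_le hs h) t
    rw [mul_assoc]
    calc |(D * (cyc d s * f)).coeff t| ≤ 2 ^ r * (2 * H) := h1
      _ = 2 ^ (r + 1) * H := by ring

lemma len_le_of_coeff {P : ℤ[X]} {B : ℤ} (h : ∀ t, |P.coeff t| ≤ B) : len P ≤ nt P * B := by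
  unfold len nt
  calc ∑ i ∈ P.support, |P.coeff i| ≤ ∑ _i ∈ P.support, B := Finset.sum_le_sum fun i _ => h i
    _ = P.support.card * B := by rw [sum_const, nsmul_eq_mul]

lemma mahler_cyc {d : ℕ} {s : ℤ} (hd : 1 ≤ d) (hs : s = 1 ∨ s = -1) : m1 (cyc d s) = 1 := by
  have hsn : ‖(s : ℂ)‖ = 1 := by rcases hs with rfl | rfl <;> simp
  have hs0 : (s : ℂ) ≠ 0 := by
    intro h; rw [h] at hsn; simp at hsn
  have e : toC (cyc d s) = C (-(s : ℂ)) * X ^ d + C 1 := by
    unfold toC cyc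
    simp only [Polynomial.map_sub, Polynomial.map_one, Polynomial.map_mul, map_C,
      Polynomial.map_pow, map_X, map_neg, C_1]
    have : (Int.castRingHom ℂ) s = (s : ℂ) := rfl
    rw [this]
    ring
  have hdeg : (C (-(s : ℂ)) * X ^ d + C 1).degree = ((d : ℕ) : WithBot ℕ) := by
    have h1 : (C (-(s : ℂ)) * X ^ d).degree = ((d : ℕ) : WithBot ℕ) := degree_C_mul_X_pow d (neg_ne_zero.mpr hs0)
    rw [degree_add_eq_left_of_degree_lt, h1]
    rw [h1]
    refine lt_of_le_of_lt degree_C_le ?_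
    exact_mod_cast hd
  have hlc : (C (-(s : ℂ)) * X ^ d + C 1).leadingCoeff = -(s : ℂ) := by
    rw [leadingCoeff, natDegree_eq_of_degree_eq_some hdeg, coeff_add, coeff_C_mul, coeff_X_pow,
      if_pos rfl, mul_one, coeff_C_of_ne_zero (by omega), add_zero]
  unfold m1
  rw [e, mahlerMeasure_eq_leadingCoeff_mul_prod_roots, hlc, norm_neg, hsn, one_mul]
  apply Multiset.prod_eq_one
  intro x hx
  rw [Multiset.mem_map] at hx
  obtain ⟨w, hw, rfl⟩ := hx
  have hne : C (-(s : ℂ)) * X ^ d + C 1 ≠ 0 := by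
    intro h0
    rw [h0, degree_zero] at hdeg
    exact absurd hdeg.symm (by simp)
  have h1 := (mem_roots hne).mp hw
  rw [IsRoot, eval_add, eval_mul, eval_C, eval_pow, eval_X, eval_C] at h1
  have h2 : (s : ℂ) * w ^ d = 1 := by linear_combination -h1
  have h3 : ‖w‖ ^ d = 1 := by
    have := congrArg norm h2
    rwa [norm_mul, hsn, one_mul, norm_pow, norm_one] at this
  have h4 : ‖w‖ = 1 := (pow_eq_one_iff_of_nonneg (norm_nonneg _) (by omega)).mp h3
  rw [h4, max_self]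

lemma Cyc.mahler {r : ℕ} {D : ℤ[X]} (hD : Cyc r D) : m1 D = 1 := by
  induction hD with
  | one => simp [m1, toC]
  | mul r D d s hd hs hD ih =>
    rw [Pool.Agent.H261R2.CM.I1_m1_mul, ih, mahler_cyc hd hs, one_mul]

lemma Cyc.ne_zero {r : ℕ} {D : ℤ[X]} (hD : Cyc r D) : D ≠ 0 := by
  intro h
  have h1 := hD.mahler
  rw [h] at h1
  simp [m1, toC] at h1

/-- the multiplier has small length -/
lemma Cyc.len_le {r : ℕ} {D : ℤ[X]} (hD : Cyc r D) : len D ≤ 4 ^ r := by
  have h1 : ∀ t, |(1 : ℤ[X]).coeff t| ≤ 1 := by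
    intro t
    rw [coeff_one]
    split_ifs <;> simp
  have h2 := hD.coeff_mul_le h1
  rw [mul_one] at h2
  have h3 := len_le_of_coeff h2
  have h4 : (nt D : ℤ) ≤ 2 ^ r := by exact_mod_cast hD.nt_le
  calc len D ≤ nt D * (2 ^ r * 1) := h3
    _ ≤ 2 ^ r * (2 ^ r * 1) := by
        apply mul_le_mul_of_nonneg_right h4 (by positivity)
    _ = 4 ^ r := by
        rw [mul_one, ← mul_pow]; norm_num

/-- the sparse multiple of a compressible polynomial has small length -/
lemma exists_short {z H : ℕ} {f : ℤ[X]} (h : Computes z f) (hH : 1 ≤ H)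
    (hf : ∀ t, |f.coeff t| ≤ H) :
    ∃ r ≤ z, ∃ D : ℤ[X], Cyc r D ∧ nt (D * f) ≤ 8 ^ z ∧ len D ≤ ((16 ^ z * H : ℕ) : ℤ) ∧
      len (f * D) ≤ ((16 ^ z * H : ℕ) : ℤ) := by
  obtain ⟨r, hr, D, hD, hnt⟩ := prog_sparse h
  refine ⟨r, hr, D, hD, hnt, ?_, ?_⟩
  · refine hD.len_le.trans ?_
    push_cast
    calc (4 : ℤ) ^ r ≤ 4 ^ z := pow_le_pow_right₀ (by norm_num) hr
      _ ≤ 16 ^ z := pow_le_pow_left₀ (by norm_num) (by norm_num) z
      _ = 16 ^ z * 1 := (mul_one _).symm
      _ ≤ 16 ^ z * H := by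
          apply mul_le_mul_of_nonneg_left _ (by positivity)
          exact_mod_cast hH
  · have h1 := len_le_of_coeff (hD.coeff_mul_le hf)
    have h2 : (nt (D * f) : ℤ) ≤ 8 ^ z := by exact_mod_cast hnt
    rw [mul_comm f D]
    refine h1.trans ?_
    push_cast
    calc (nt (D * f) : ℤ) * (2 ^ r * H) ≤ 8 ^ z * (2 ^ z * H) := by
          apply mul_le_mul h2 _ (by positivity) (by positivity)
          apply mul_le_mul_of_nonneg_right _ (by positivity)
          exact pow_le_pow_right₀ (by norm_num) hr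
      _ = 16 ^ z * H := by
          rw [← mul_assoc, ← mul_pow]; norm_num

/-- the integral of `log⁺ |f|` over the circle -/
theorem logPlus_le {z H : ℕ} {f : ℤ[X]} (h : Computes z f) (hf0 : f ≠ 0) (hH : 1 ≤ H)
    (hf : ∀ t, |f.coeff t| ≤ H) : mx1 f 1 ≤ z * Real.log 16 + Real.log H := by
  obtain ⟨r, hr, D, hD, _, h1, h2⟩ := exists_short h hH hf
  have h3 := Pool.Agent.H261R2.CM.logplus_converse (16 ^ z * H) f D hf0 hD.ne_zero hD.mahler h1 h2
  refine h3.trans (le_of_eq ?_)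
  have hH0 : (H : ℝ) ≠ 0 := by positivity
  push_cast
  rw [Real.log_mul (by positivity) hH0, Real.log_pow]

theorem circleAverage_posLog (f : ℤ[X]) :
    Real.circleAverage (fun x : ℂ => Real.posLog ‖aeval x f‖) 0 1 = mx1 f 1 := by
  rw [Pool.Agent.H261R2.CM.D_circleAverage]
  unfold mx1
  refine intervalIntegral.integral_congr fun t _ => ?_
  have e : aeval (ez t) f = ev1 f t := by
    unfold ev1 toC
    rw [eval_map, aeval_def]
    rfl
  simp only [e, Pool.Agent.H261R2.CM.ev1_one, norm_one]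
  change max 0 (Real.log ‖ev1 f t‖) = _
  rcases le_total ‖ev1 f t‖ 1 with h | h
  · rw [max_eq_right h, Real.log_one, max_eq_left]
    exact Real.log_nonpos (norm_nonneg _) h
  · rw [max_eq_left h, max_eq_right]
    exact Real.log_nonneg h

end Pool.Agent.H723.LZM
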