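import Pool.Agent.H723.LZM.Bound
import Pool.Graph.R_seed8.H261R2.CM.K6
import Pool.Graph.R_seed8.H887R3.LW.MV9
import Pool.Graph.R_pool_sql_team_seeded_5cf16337.K3h71.SP.Coef

/-!
# Boyd's set of Mahler measures and compressible polynomials
-/

set_option autoImplicit false

namespace Pool.Agent.H723.LZM

open Polynomial Finset MeasureTheory
open Pool.Agent.H261R2.CM (m1 len mx1 ev1 ez toC tv mM mx LL)

/-- a polynomial in one variable as a polynomial in the variables indexed by `Fin 1` -/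
noncomputable def uni (f : ℤ[X]) : MvPolynomial (Fin 1) ℤ := aeval (MvPolynomial.X 0) f

lemma tv_uni (f : ℤ[X]) (t : Fin 1 → ℝ) : tv (uni f) t = ev1 f (t 0) := by
  unfold tv uni ev1 toC
  rw [MvPolynomial.eval_map, ← MvPolynomial.coe_eval₂Hom, eval_map]
  have h1 := Polynomial.hom_eval₂ f (algebraMap ℤ (MvPolynomial (Fin 1) ℤ))
    (MvPolynomial.eval₂Hom (Int.castRingHom ℂ)
      (fun j : Fin 1 => Complex.exp (2 * (Real.pi : ℂ) * Complex.I * ((t j : ℝ) : ℂ))))
    (MvPolynomial.X 0)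
  rw [aeval_def, h1]
  congr 1
  · exact RingHom.ext_int _ _
  · simp [ez]

lemma uni_ne_zero {f : ℤ[X]} (hf : f ≠ 0) : uni f ≠ 0 := by
  intro h
  have h2 : m1 f = 0 := by
    -- `f` vanishes on the unit circle
    have h1 : ∀ t : ℝ, ev1 f t = 0 := by
      intro t
      have := tv_uni f (fun _ => t)
      rw [h] at this
      rw [← this]
      simp [tv]
    have h3 : (toC f) = 0 := by
      apply Polynomial.eq_zero_of_infinite_isRoot
      apply Set.Infinite.mono (s := Set.range fun n : ℕ => ez (1 / ((n : ℝ) + 2)))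
      · rintro _ ⟨n, rfl⟩
        exact h1 _
      · apply Set.infinite_range_of_injective
        intro a b hab
        simp only [ez] at hab
        rw [Complex.exp_eq_exp_iff_exists_int] at hab
        obtain ⟨n, hn⟩ := hab
        have hpi : (2 * (Real.pi : ℂ) * Complex.I) ≠ 0 := Complex.two_pi_I_ne_zero
        have h4 : ((1 / ((a : ℝ) + 2) : ℝ) : ℂ) = ((1 / ((b : ℝ) + 2) : ℝ) : ℂ) + n := by
          apply mul_left_cancel₀ hpi
          rw [hn]
          ring
        have h5 : (1 / ((a : ℝ) + 2) : ℝ) = (1 / ((b : ℝ) + 2) : ℝ) + n := by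
          exact_mod_cast h4
        have ha1 : (1 / ((a : ℝ) + 2) : ℝ) ≤ 1 / 2 := by
          apply one_div_le_one_div_of_le (by norm_num)
          linarith [(Nat.cast_nonneg a : (0:ℝ) ≤ a)]
        have ha0 : (0:ℝ) < (1 / ((a : ℝ) + 2) : ℝ) := by positivity
        have hb1 : (1 / ((b : ℝ) + 2) : ℝ) ≤ 1 / 2 := by
          apply one_div_le_one_div_of_le (by norm_num)
          linarith [(Nat.cast_nonneg b : (0:ℝ) ≤ b)]
        have hb0 : (0:ℝ) < (1 / ((b : ℝ) + 2) : ℝ) := by positivity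
        have hn0 : n = 0 := by
          have h6 : (n : ℝ) < 1 := by linarith
          have h7 : (-1 : ℝ) < n := by linarith
          have h8 : n < 1 := by exact_mod_cast h6
          have h9 : -1 < n := by exact_mod_cast h7
          omega
        rw [hn0, Int.cast_zero, add_zero] at h5
        have h6 : (a : ℝ) + 2 = b + 2 := by
          have := congrArg (fun x : ℝ => 1 / x) h5
          simpa using this
        have h7 : (a : ℝ) = b := by linarith
        exact_mod_cast h7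
    unfold m1
    rw [h3]
    simp
  have h3 : m1 f ≠ 0 := by
    unfold m1
    have : toC f ≠ 0 := (Polynomial.map_ne_zero_iff (RingHom.injective_int _)).mpr hf
    exact (mahlerMeasure_pos_of_ne_zero this).ne'
  exact h3 h2

lemma integral_fin_one (g : ℝ → ℝ) :
    (∫ t in Set.Icc (0 : Fin 1 → ℝ) 1, g (t 0)) = ∫ t in (0:ℝ)..1, g t := by
  have hmp := volume_preserving_funUnique (Fin 1) ℝ
  have h1 := hmp.setIntegral_preimage_emb (MeasurableEquiv.measurableEmbedding _) g
    (Set.Icc (0:ℝ) 1)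
  have h2 : (MeasurableEquiv.funUnique (Fin 1) ℝ) ⁻¹' (Set.Icc (0:ℝ) 1) =
      Set.Icc (0 : Fin 1 → ℝ) 1 := by
    ext t
    simp only [Set.mem_preimage, Set.mem_Icc, Pi.le_def, MeasurableEquiv.funUnique_apply]
    constructor
    · rintro ⟨h3, h4⟩
      exact ⟨fun i => by rw [Subsingleton.elim i default]; exact h3,
        fun i => by rw [Subsingleton.elim i default]; exact h4⟩
    · rintro ⟨h3, h4⟩
      exact ⟨h3 _, h4 _⟩
  rw [h2] at h1
  rw [intervalIntegral.integral_of_le zero_le_one, ← integral_Icc_eq_integral_Ioc, ← h1]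
  rfl

lemma mM_uni {f : ℤ[X]} (hf : f ≠ 0) : mM (uni f) = m1 f := by
  have h1 : (∫ t in Set.Icc (0 : Fin 1 → ℝ) 1, Real.log ‖tv (uni f) t‖) =
      ∫ t in (0:ℝ)..1, Real.log ‖ev1 f t‖ := by
    rw [← integral_fin_one]
    simp only [tv_uni]
  unfold mM
  rw [h1, ← Pool.Agent.H261R2.CM.D_log_m1, Real.exp_log]
  unfold m1
  have : toC f ≠ 0 := (Polynomial.map_ne_zero_iff (RingHom.injective_int _)).mpr hf
  exact mahlerMeasure_pos_of_ne_zero this

lemma mx_uni (f : ℤ[X]) : mx (uni f) 1 = mx1 f 1 := by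
  unfold mx mx1
  rw [← integral_fin_one]
  have h1 : ∀ t : Fin 1 → ℝ, tv (1 : MvPolynomial (Fin 1) ℤ) t = 1 := by
    intro t; simp [tv]
  simp only [tv_uni, h1, Pool.Agent.H261R2.CM.ev1_one]

/-- membership in the closed sets of the exhaustion -/
theorem mem_LL {f : ℤ[X]} (hf : f ≠ 0) {K : ℝ} (h : mx1 f 1 ≤ K) : m1 f ∈ LL K :=
  ⟨1, le_rfl, uni f, 1, uni_ne_zero hf, one_ne_zero, isRelPrime_one_right,
    by rw [mx_uni]; exact h, (mM_uni hf).symm⟩

/-- bounded coefficients -/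
theorem mem_LL_of_coeff {z H : ℕ} {f : ℤ[X]} (h : Computes z f) (hf0 : f ≠ 0) (hH : 1 ≤ H)
    (hf : ∀ t, |f.coeff t| ≤ H) : m1 f ∈ LL (z * Real.log 16 + Real.log H) :=
  mem_LL hf0 (logPlus_le h hf0 hH hf)

/-- arbitrary coefficients, bounded measure -/
theorem mem_LL_of_measure {z : ℕ} {f : ℤ[X]} (h : Computes z f) (hf0 : f ≠ 0) {B : ℝ}
    (hB : m1 f ≤ B) : m1 f ∈ LL (8 ^ z * Real.log 4 + Real.log B) := by
  obtain ⟨r, hr, D, hD, hnt⟩ := prog_sparse h
  have hne : D * f ≠ 0 := mul_ne_zero hD.ne_zero hf0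
  have hm : m1 (D * f) = m1 f := by
    rw [Pool.Agent.H261R2.CM.I1_m1_mul, hD.mahler, one_mul]
  have hm1 : 1 ≤ m1 f := Pool.Agent.H261R2.CM.I1_one_le_m1 hf0
  have hB1 : 1 ≤ B := hm1.trans hB
  set k : ℕ := 8 ^ z with hk
  have hsup : (toC (D * f)).support.card ≤ k := (card_le_card (support_map_subset _ _)).trans hnt
  have hcoef : ∀ j, |(((D * f).coeff j : ℤ) : ℝ)| ≤ 2 ^ k * B := by
    intro j
    have h1 := Pool.Agent.K3h71.SP.coeff_le k (toC (D * f)) hsup j
    have h2 : ‖(toC (D * f)).coeff j‖ = |(((D * f).coeff j : ℤ) : ℝ)| := by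
      unfold toC
      rw [coeff_map, eq_intCast, Complex.norm_intCast]
    rw [h2] at h1
    refine h1.trans ?_
    apply mul_le_mul_of_nonneg_left _ (by positivity)
    have : (toC (D * f)).mahlerMeasure = m1 f := hm
    rw [this]
    exact hB
  have hlen : (len (D * f) : ℝ) ≤ 4 ^ k * B := by
    unfold len
    push_cast
    calc ∑ i ∈ (D * f).support, |(((D * f).coeff i : ℤ) : ℝ)|
        ≤ ∑ _i ∈ (D * f).support, 2 ^ k * B := Finset.sum_le_sum fun i _ => hcoef i
      _ = (D * f).support.card * (2 ^ k * B) := by rw [sum_const, nsmul_eq_mul]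
      _ ≤ (2 ^ k) * (2 ^ k * B) := by
          apply mul_le_mul_of_nonneg_right _ (by positivity)
          have h3 : (D * f).support.card ≤ 2 ^ k := hnt.trans Nat.lt_two_pow_self.le
          exact_mod_cast h3
      _ = 4 ^ k * B := by
          rw [← mul_assoc, ← mul_pow]; norm_num
  have h4 : (1:ℝ) ≤ 4 ^ k * B := by
    have : (1:ℝ) ≤ 4 ^ k := one_le_pow₀ (by norm_num)
    nlinarith
  have hone : (len (1 : ℤ[X]) : ℝ) ≤ 4 ^ k * B := by
    have e : len (1 : ℤ[X]) = 1 := by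
      unfold len
      rw [show (1 : ℤ[X]) = C 1 by simp, support_C (by norm_num)]
      simp
    rw [e]
    exact_mod_cast h4
  have h5 := Pool.Agent.H261R2.CM.mx1_le_of_len (D * f) 1 hne _ hlen hone h4
  have h6 := mem_LL hne h5
  rw [hm] at h6
  refine Pool.Agent.H261R2.CM.LL_mono (le_of_eq ?_) h6
  rw [Real.log_mul (by positivity) (by positivity), Real.log_pow, hk]
  push_cast
  ring

/-- the Mahler measures of the nonzero polynomials computed with `z` instructions -/
def CM (z : ℕ) : Set ℝ := {x | ∃ f : ℤ[X], f ≠ 0 ∧ Computes z f ∧ x = m1 f}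

theorem CM_subset (z : ℕ) (B : ℝ) :
    CM z ∩ Set.Iic B ⊆ LL (8 ^ z * Real.log 4 + Real.log B) := by
  rintro x ⟨⟨f, hf0, hf, rfl⟩, hB⟩
  exact mem_LL_of_measure hf hf0 hB

theorem closure_CM_subset (z : ℕ) (B : ℝ) {x : ℝ} (hx : x ∈ closure (CM z)) (hxB : x < B) :
    x ∈ LL (8 ^ z * Real.log 4 + Real.log B) := by
  have h1 : x ∈ closure (CM z ∩ Set.Iic B) := by
    rw [mem_closure_iff_nhds] at hx ⊢
    intro U hU
    obtain ⟨y, hy1, hy2⟩ := hx (U ∩ Set.Iio B) (Filter.inter_mem hU (Iio_mem_nhds hxB))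
    exact ⟨y, hy1.1, hy2, (Set.mem_Iio.mp hy1.2).le⟩
  have h2 := closure_mono (CM_subset z B) h1
  rwa [(Pool.Agent.H261R2.CM.closed_LL _).closure_eq] at h2

theorem closure_CM (z : ℕ) : closure (CM z) ⊆ ⋃ K : ℝ, LL K := fun x hx =>
  Set.mem_iUnion.mpr ⟨_, closure_CM_subset z (x + 1) hx (by linarith)⟩

end Pool.Agent.H723.LZM
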