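import Mathlib

/-!
# Lempel-Ziv parses, windows of polynomials and products of the polynomials `1 ± X ^ d`

`LZ z f`: the coefficient sequence of `f` has a Lempel-Ziv parse with `z` phrases.  A phrase is a
single (arbitrary) coefficient, a copy of an earlier block up to sign (the copy may overlap its
source, so that periodic runs are single phrases), or a reversed copy up to sign of a block of the
coefficients before the phrase.

`win i j f` is the part of `f` with exponents in `[i, j)`, `nt` the number of terms, `Cyc r D` says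
that `D` is a product of `r` polynomials `1 - s X ^ d`, `d ≥ 1`, `s = ± 1`.
-/

set_option autoImplicit false

namespace Pool.Agent.H723.LZM

open Polynomial Finset

/-- The block `[m, n)` of the sequence `a` is a phrase: it has at most one element, or it is, up to
sign, a copy of the block at distance `d` before it (overlaps allowed), or, up to sign, a reversed
copy of a block of terms with index less than `m`. -/
def Phrase (a : ℕ → ℤ) (m n : ℕ) : Prop :=
  n ≤ m + 1 ∨
  (∃ (d : ℕ) (s : ℤ), 1 ≤ d ∧ d ≤ m ∧ (s = 1 ∨ s = -1) ∧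
    ∀ t, m ≤ t → t < n → a t = s * a (t - d)) ∨
  (∃ (b : ℕ) (s : ℤ), (s = 1 ∨ s = -1) ∧
    ∀ t, m ≤ t → t < n → t ≤ b ∧ b < t + m ∧ a t = s * a (b - t))

/-- The coefficient sequence of `f` is a concatenation of `z` phrases, followed by zeros. -/
def LZ (z : ℕ) (f : ℤ[X]) : Prop :=
  ∃ p : ℕ → ℕ, p 0 = 0 ∧ (∀ j < z, p j ≤ p (j + 1) ∧ Phrase f.coeff (p j) (p (j + 1))) ∧
    ∀ t, p z ≤ t → f.coeff t = 0

/-- number of terms -/
noncomputable def nt (p : ℤ[X]) : ℕ := p.support.card

lemma nt_add_le (p q : ℤ[X]) : nt (p + q) ≤ nt p + nt q :=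
  (card_le_card support_add).trans (card_union_le _ _)

lemma nt_neg (p : ℤ[X]) : nt (-p) = nt p := by
  unfold nt; rw [support_neg]

lemma nt_sub_le (p q : ℤ[X]) : nt (p - q) ≤ nt p + nt q := by
  rw [sub_eq_add_neg]
  exact (nt_add_le _ _).trans (by rw [nt_neg])

lemma nt_mul_le (p q : ℤ[X]) : nt (p * q) ≤ nt p * nt q := card_support_mul_le

lemma nt_C_mul_le (c : ℤ) (p : ℤ[X]) : nt (C c * p) ≤ nt p := by
  apply card_le_card
  intro t ht
  rw [mem_support_iff, coeff_C_mul] at ht
  rw [mem_support_iff]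
  exact right_ne_zero_of_mul ht

lemma nt_monomial_le (k : ℕ) (c : ℤ) : nt (monomial k c) ≤ 1 :=
  (card_le_card (support_monomial_subset k c)).trans (by simp)

lemma nt_X_pow_mul_le (d : ℕ) (p : ℤ[X]) : nt (X ^ d * p) ≤ nt p := by
  calc nt (X ^ d * p) ≤ nt (X ^ d) * nt p := nt_mul_le _ _
    _ ≤ 1 * nt p := by
        apply Nat.mul_le_mul_right
        have := nt_monomial_le d 1
        rwa [← X_pow_eq_monomial] at this
    _ = nt p := one_mul _

@[simp] lemma nt_zero : nt 0 = 0 := by simp [nt]

/-- the polynomial `1 - s X ^ d` -/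
noncomputable def cyc (d : ℕ) (s : ℤ) : ℤ[X] := 1 - C s * X ^ d

lemma nt_cyc_le (d : ℕ) (s : ℤ) : nt (cyc d s) ≤ 2 := by
  unfold cyc
  refine (nt_sub_le _ _).trans ?_
  have h1 : nt (1 : ℤ[X]) ≤ 1 := by
    have := nt_monomial_le 0 1
    simpa using this
  have h2 : nt (C s * X ^ d) ≤ 1 := by
    rw [C_mul_X_pow_eq_monomial]
    exact nt_monomial_le _ _
  omega

/-- products of at most `r` polynomials `1 - s X ^ d`, `d ≥ 1`, `s = ± 1` -/
inductive Cyc : ℕ → ℤ[X] → Prop
  | one : Cyc 0 1
  | mul (r : ℕ) (D : ℤ[X]) (d : ℕ) (s : ℤ) : 1 ≤ d → (s = 1 ∨ s = -1) → Cyc r D →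
      Cyc (r + 1) (D * cyc d s)

lemma Cyc.nt_le {r : ℕ} {D : ℤ[X]} (h : Cyc r D) : nt D ≤ 2 ^ r := by
  induction h with
  | one =>
    have := nt_monomial_le 0 1
    simpa using this
  | mul r D d s _ _ _ ih =>
    calc nt (D * cyc d s) ≤ nt D * nt (cyc d s) := nt_mul_le _ _
      _ ≤ 2 ^ r * 2 := Nat.mul_le_mul ih (nt_cyc_le d s)
      _ = 2 ^ (r + 1) := by ring

/-- the part of `P` with exponents in `[i, j)` -/
noncomputable def win (i j : ℕ) (P : ℤ[X]) : ℤ[X] := ∑ t ∈ Ico i j, monomial t (P.coeff t)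

lemma coeff_win (i j : ℕ) (P : ℤ[X]) (t : ℕ) :
    (win i j P).coeff t = if i ≤ t ∧ t < j then P.coeff t else 0 := by
  unfold win
  rw [finsetSum_coeff]
  simp only [coeff_monomial]
  rw [Finset.sum_ite_eq']
  simp [mem_Ico]

lemma win_of_le {i j : ℕ} (h : j ≤ i) (P : ℤ[X]) : win i j P = 0 := by
  unfold win
  rw [Ico_eq_empty_of_le h, sum_empty]

lemma win_split {i j k : ℕ} (h1 : i ≤ j) (h2 : j ≤ k) (P : ℤ[X]) :
    win i k P = win i j P + win j k P := by
  unfold win
  rw [Finset.sum_Ico_consecutive _ h1 h2]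

lemma natDegree_win_lt {i j : ℕ} (P : ℤ[X]) (N : ℕ) (h : j ≤ N + 1) :
    (win i j P).natDegree ≤ N := by
  rw [natDegree_le_iff_coeff_eq_zero]
  intro t ht
  rw [coeff_win, if_neg]
  omega

/-- pulling back a window along a copy -/
lemma win_shift {f : ℤ[X]} {d x y : ℕ} {s : ℤ} (hd : d ≤ x)
    (h : ∀ t, x ≤ t → t < y → f.coeff t = s * f.coeff (t - d)) :
    win x y f = C s * (X ^ d * win (x - d) (y - d) f) := by
  ext t
  rw [coeff_C_mul, coeff_X_pow_mul', coeff_win]
  by_cases hdt : d ≤ t
  · rw [if_pos hdt, coeff_win]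
    by_cases ht : x ≤ t ∧ t < y
    · rw [if_pos ht, if_pos (by omega), h t ht.1 ht.2]
    · rw [if_neg ht, if_neg (by omega), mul_zero]
  · rw [if_neg hdt, if_neg (by omega), mul_zero]

/-- short windows after a copied phrase has been added -/
lemma short_windows {f D : ℤ[X]} {n n' d T : ℕ} {s : ℤ} (hd1 : 1 ≤ d) (hdn : d ≤ n)
    (hT : ∀ i j, j ≤ n → nt (D * win i j f) ≤ T)
    (h : ∀ t, n ≤ t → t < n' → f.coeff t = s * f.coeff (t - d)) :
    ∀ x y, n ≤ x + d → y ≤ x + d → y ≤ n' → nt (D * win x y f) ≤ 2 * T := by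
  intro x
  induction x using Nat.strong_induction_on with
  | _ x ih =>
    intro y hx hy hyn
    by_cases hxy : y ≤ x
    · rw [win_of_le hxy, mul_zero, nt_zero]; exact Nat.zero_le _
    push Not at hxy
    by_cases hxn : n ≤ x
    · have e := win_shift (f := f) (d := d) (x := x) (y := y) (s := s) (by omega)
        (fun t h1 h2 => h t (by omega) (by omega))
      rw [e]
      have e2 : D * (C s * (X ^ d * win (x - d) (y - d) f)) =
          C s * (X ^ d * (D * win (x - d) (y - d) f)) := by ring
      rw [e2]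
      refine (nt_C_mul_le _ _).trans ((nt_X_pow_mul_le _ _).trans ?_)
      exact ih (x - d) (by omega) (y - d) (by omega) (by omega) (by omega)
    · push Not at hxn
      by_cases hyn2 : y ≤ n
      · exact (hT x y hyn2).trans (by omega)
      · push Not at hyn2
        rw [win_split (i := x) (j := n) (k := y) (by omega) (by omega), mul_add]
        refine (nt_add_le _ _).trans ?_
        have h1 := hT x n le_rfl
        have e := win_shift (f := f) (d := d) (x := n) (y := y) (s := s) (by omega)
          (fun t h1 h2 => h t (by omega) (by omega))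
        have h2 : nt (D * win n y f) ≤ T := by
          rw [e]
          have e2 : D * (C s * (X ^ d * win (n - d) (y - d) f)) =
              C s * (X ^ d * (D * win (n - d) (y - d) f)) := by ring
          rw [e2]
          refine (nt_C_mul_le _ _).trans ((nt_X_pow_mul_le _ _).trans ?_)
          exact hT _ _ (by omega)
        omega

/-- the difference operator applied to a window inside a copied phrase -/
lemma cyc_mul_win {f : ℤ[X]} {n n' d : ℕ} {s : ℤ} (hdn : d ≤ n)
    (h : ∀ t, n ≤ t → t < n' → f.coeff t = s * f.coeff (t - d)) {i j : ℕ} (hi : n ≤ i)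
    (hij : i ≤ j) (hj : j ≤ n') :
    cyc d s * win i j f =
      win i (min j (i + d)) f - C s * (X ^ d * win (max i (j - d)) j f) := by
  unfold cyc
  ext t
  rw [sub_mul, one_mul, coeff_sub, coeff_sub, mul_assoc, coeff_C_mul, coeff_C_mul,
    coeff_X_pow_mul', coeff_X_pow_mul', coeff_win, coeff_win, coeff_win, coeff_win]
  by_cases hdt : d ≤ t
  · rw [if_pos hdt, if_pos hdt]
    by_cases h1 : i ≤ t ∧ t < j
    · rw [if_pos h1]
      by_cases h2 : t < i + d
      · rw [if_neg (by omega : ¬ (i ≤ t - d ∧ t - d < j)), if_pos (by omega),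
          if_neg (by omega)]
      · rw [if_pos (by omega : i ≤ t - d ∧ t - d < j),
          if_neg (by omega : ¬ (i ≤ t ∧ t < min j (i + d))),
          if_neg (by omega), h t (by omega) (by omega)]
        ring
    · rw [if_neg h1, if_neg (by omega : ¬ (i ≤ t ∧ t < min j (i + d)))]
      by_cases h2 : i ≤ t - d ∧ t - d < j
      · rw [if_pos h2, if_pos (by omega)]
      · rw [if_neg h2, if_neg (by omega)]
  · rw [if_neg hdt, if_neg hdt]
    by_cases h1 : i ≤ t ∧ t < j
    · rw [if_pos h1, if_pos (by omega)]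
    · rw [if_neg h1, if_neg (by omega)]

/-- adding a copied phrase -/
lemma copy_phrase {f D : ℤ[X]} {n n' d T : ℕ} {s : ℤ} (hd1 : 1 ≤ d) (hdn : d ≤ n)
    (hT : ∀ i j, j ≤ n → nt (D * win i j f) ≤ T)
    (h : ∀ t, n ≤ t → t < n' → f.coeff t = s * f.coeff (t - d)) :
    ∀ i j, j ≤ n' → nt (D * cyc d s * win i j f) ≤ 6 * T := by
  have hsw := short_windows hd1 hdn hT h
  have hA : ∀ i j, j ≤ n → nt (D * cyc d s * win i j f) ≤ 2 * T := by
    intro i j hj
    have e : D * cyc d s * win i j f = cyc d s * (D * win i j f) := by ring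
    rw [e]
    exact (nt_mul_le _ _).trans (Nat.mul_le_mul (nt_cyc_le _ _) (hT i j hj))
  have hB : ∀ i j, n ≤ i → j ≤ n' → nt (D * cyc d s * win i j f) ≤ 4 * T := by
    intro i j hi hj
    by_cases hij : j ≤ i
    · rw [win_of_le hij, mul_zero, nt_zero]; exact Nat.zero_le _
    push Not at hij
    rw [mul_assoc, cyc_mul_win hdn h hi hij.le hj, mul_sub]
    refine (nt_sub_le _ _).trans ?_
    have h1 := hsw i (min j (i + d)) (by omega) (by omega) (by omega)
    have h2 := hsw (max i (j - d)) j (by omega) (by omega) (by omega)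
    have h3 : nt (D * (C s * (X ^ d * win (max i (j - d)) j f))) ≤
        nt (D * win (max i (j - d)) j f) := by
      have e2 : D * (C s * (X ^ d * win (max i (j - d)) j f)) =
          C s * (X ^ d * (D * win (max i (j - d)) j f)) := by ring
      rw [e2]
      exact (nt_C_mul_le _ _).trans (nt_X_pow_mul_le _ _)
    omega
  intro i j hj
  by_cases h1 : j ≤ n
  · exact (hA i j h1).trans (by omega)
  by_cases h2 : n ≤ i
  · exact (hB i j h2 hj).trans (by omega)
  push Not at h1 h2
  rw [win_split (i := i) (j := n) (k := j) (by omega) (by omega), mul_add]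
  refine (nt_add_le _ _).trans ?_
  have h3 := hA i n le_rfl
  have h4 := hB n j le_rfl hj
  omega

lemma nt_reflect (N : ℕ) (p : ℤ[X]) : nt (reflect N p) = nt p := by
  unfold nt
  rw [reflect_support, card_image_of_injective]
  exact (revAt N).injective

lemma reflect_cyc (d : ℕ) {s : ℤ} (hs : s = 1 ∨ s = -1) :
    reflect d (cyc d s) = C (-s) * cyc d s := by
  have hss : s * s = 1 := by rcases hs with rfl | rfl <;> norm_num
  unfold cyc
  rw [reflect_sub]
  have e1 : reflect d (1 : ℤ[X]) = X ^ d := by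
    have := reflect_monomial d 0 (R := ℤ)
    rw [pow_zero] at this
    rw [this, revAt_le (Nat.zero_le d), Nat.sub_zero]
  have e2 : reflect d (C s * X ^ d) = C s := by
    rw [reflect_C_mul_X_pow, revAt_le le_rfl, Nat.sub_self, pow_zero, mul_one]
  rw [e1, e2, mul_sub, mul_one, ← mul_assoc, ← C_mul, neg_mul, hss]
  simp only [map_neg, C_1]
  ring

lemma Cyc.reflect_eq {r : ℕ} {D : ℤ[X]} (h : Cyc r D) : ∃ (e : ℕ) (ε : ℤ),
    D.natDegree ≤ e ∧ (ε = 1 ∨ ε = -1) ∧ D = C ε * reflect e D := by
  induction h with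
  | one =>
    refine ⟨0, 1, by simp, Or.inl rfl, ?_⟩
    have := reflect_monomial 0 0 (R := ℤ)
    rw [pow_zero] at this
    rw [this]
    simp
  | mul r D d s hd hs hD ih =>
    obtain ⟨e, ε, he, hε, hDe⟩ := ih
    have hdeg : (cyc d s).natDegree ≤ d := by
      unfold cyc
      refine (natDegree_sub_le _ _).trans ?_
      simp only [natDegree_one]
      exact max_le (Nat.zero_le _) (natDegree_C_mul_X_pow_le _ _)
    refine ⟨e + d, ε * (-s), ?_, ?_, ?_⟩
    · exact natDegree_mul_le.trans (by omega)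
    · rcases hε with rfl | rfl <;> rcases hs with rfl | rfl <;> norm_num
    · rw [reflect_mul D (cyc d s) he hdeg, reflect_cyc d hs]
      conv_lhs => rw [hDe]
      have hss : s * s = 1 := by rcases hs with rfl | rfl <;> norm_num
      have e1 : C (ε * -s) * (reflect e D * (C (-s) * cyc d s)) =
          C (ε * -s * -s) * (reflect e D * cyc d s) := by
        rw [C_mul (a := ε * -s) (b := -s)]
        ring
      rw [e1, show ε * -s * -s = ε * (s * s) by ring, hss, mul_one, mul_assoc]

end Pool.Agent.H723.LZM
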