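import Pool.Agent.H723.LZM.Bound
import Pool.Graph.R_seed8.Results.MP_7ab245_nt.MonomialCount
import Pool.Graph.R_seed8.Results.MP_7ab245_nt.LogPlusMean

/-!
# Lehmer's problem for compressible polynomials
-/

set_option autoImplicit false

namespace Pool.Agent.H723.LZM

open Polynomial Finset
open Pool.Agent.H261R2.CM (m1 len mx1 ev1 ez toC)

lemma computes_zero {f : ℤ[X]} (h : Computes 0 f) : f = 0 := by
  obtain ⟨L, hL, hlen, hf⟩ := h
  cases hL with
  | start => simpa using hf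
  | letter L P c n h1 h2 =>
    exfalso
    have := List.length_pos_of_mem h2
    simp at hlen
    simp [hlen] at this
  | copy L P Q c s i d l n h1 h2 h3 h4 h5 =>
    exfalso
    have := List.length_pos_of_mem h2
    simp at hlen
    simp [hlen] at this
  | reverse L P Q c i l n h1 h2 h3 =>
    exfalso
    have := List.length_pos_of_mem h2
    simp at hlen
    simp [hlen] at this

lemma Cyc.exists_list {r : ℕ} {D : ℤ[X]} (hD : Cyc r D) : ∃ l : List (ℕ × ℤ), l.length = r ∧
    (∀ x ∈ l, 1 ≤ x.1 ∧ (x.2 = 1 ∨ x.2 = -1)) ∧ D = (l.map fun x => 1 - C x.2 * X ^ x.1).prod := by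
  induction hD with
  | one => exact ⟨[], rfl, by simp, by simp⟩
  | mul r D d s hd hs hD ih =>
    obtain ⟨l, h1, h2, h3⟩ := ih
    refine ⟨(d, s) :: l, by rw [List.length_cons, h1], ?_, ?_⟩
    · intro x hx
      rcases List.mem_cons.mp hx with rfl | hx
      · exact ⟨hd, hs⟩
      · exact h2 x hx
    · rw [List.map_cons, List.prod_cons, ← h3, mul_comm]
      rfl

/-- all compressible polynomials -/
theorem gap_all : ∃ C : ℝ, 0 < C ∧ ∀ (z : ℕ) (f : ℤ[X]), Computes z f → 1 < m1 f →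
    Real.exp (Real.exp (-(C * z))) ≤ m1 f := by
  obtain ⟨c, hc, h⟩ := Pool.Agent.Results.MP_7ab245_nt.MonomialCount.result.1
  set B : ℝ := Real.log (8 ^ 6 * 16 ^ 3) with hB
  have hB0 : 0 < B := Real.log_pos (by norm_num)
  set E : ℝ := max 0 (-Real.log c) with hE
  have hE0 : 0 ≤ E := le_max_left _ _
  have hcE : Real.exp (-E) ≤ c := by
    rw [← Real.le_log_iff_exp_le hc]
    linarith [le_max_right (0:ℝ) (-Real.log c)]
  refine ⟨B + E, by positivity, ?_⟩
  intro z f hz hM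
  rcases Nat.eq_zero_or_pos z with h0 | hz1
  · subst h0
    rw [computes_zero hz] at hM
    simp [m1, toC] at hM
    linarith
  have hz1' : (1:ℝ) ≤ z := by exact_mod_cast hz1
  obtain ⟨r, hr, D, hD, hnt⟩ := prog_sparse hz
  have hMD : m1 (D * f) = m1 f := by
    rw [Pool.Agent.H261R2.CM.I1_m1_mul, hD.mahler, one_mul]
  have h1 := h (D * f) (by
    have : ((D * f).map (Int.castRingHom ℂ)).mahlerMeasure = m1 (D * f) := rfl
    rw [this, hMD]; exact hM)
  have h2 : ((D * f).map (Int.castRingHom ℂ)).mahlerMeasure = m1 f := hMD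
  rw [h2] at h1
  refine le_trans (Real.exp_le_exp.mpr ?_) h1
  have hne : D * f ≠ 0 := by
    intro h3
    rw [h3] at hMD
    simp [m1, toC] at hMD
    unfold m1 toC at hM
    linarith
  have hk1 : 1 ≤ (D * f).support.card := Finset.card_pos.mpr (support_nonempty.mpr hne)
  set k : ℕ := (D * f).support.card with hk
  have hk1' : (1:ℝ) ≤ k := by exact_mod_cast hk1
  have hk6 : (k : ℝ) ≤ 8 ^ z := by exact_mod_cast hnt
  have hlogpos : 0 < Real.log (2 * k) := Real.log_pos (by linarith)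
  have hlog : Real.log (2 * k) ≤ 16 ^ z := by
    have h3 : (2:ℝ) ≤ 2 ^ z := by
      calc (2:ℝ) = 2 ^ 1 := (pow_one _).symm
        _ ≤ 2 ^ z := pow_le_pow_right₀ (by norm_num) hz1
    have h4 : 2 * (k:ℝ) ≤ 16 ^ z := by
      calc 2 * (k:ℝ) ≤ 2 ^ z * 8 ^ z := mul_le_mul h3 hk6 (by positivity) (by positivity)
        _ = 16 ^ z := by rw [← mul_pow]; norm_num
    have h5 : Real.log (2 * k) ≤ 2 * k - 1 := Real.log_le_sub_one_of_pos (by positivity)
    linarith
  have h3 : (k:ℝ) ^ 6 * Real.log (2 * k) ^ 3 ≤ Real.exp (B * z) := by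
    have h4 : Real.exp (B * z) = (8 ^ 6 * 16 ^ 3) ^ z := by
      rw [hB, mul_comm, Real.exp_nat_mul, Real.exp_log (by norm_num)]
    rw [h4]
    calc (k:ℝ) ^ 6 * Real.log (2 * k) ^ 3 ≤ (8 ^ z) ^ 6 * (16 ^ z) ^ 3 := by
          apply mul_le_mul
          · exact pow_le_pow_left₀ (by positivity) hk6 6
          · exact pow_le_pow_left₀ hlogpos.le hlog 3
          · positivity
          · positivity
      _ = (8 ^ 6 * 16 ^ 3) ^ z := by
          rw [mul_pow, ← pow_mul, ← pow_mul, ← pow_mul, ← pow_mul, mul_comm z 6, mul_comm z 3]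
  have h4 : 0 < (k:ℝ) ^ 6 * Real.log (2 * k) ^ 3 := by positivity
  have h5 : Real.exp (-E * z) ≤ c := by
    refine le_trans (Real.exp_le_exp.mpr ?_) hcE
    nlinarith
  calc Real.exp (-((B + E) * z)) = Real.exp (-E * z) / Real.exp (B * z) := by
        rw [← Real.exp_sub]; congr 1; ring
    _ ≤ c / Real.exp (B * z) := by gcongr
    _ ≤ c / ((k:ℝ) ^ 6 * Real.log (2 * k) ^ 3) := by gcongr

lemma mx1_nonneg (f : ℤ[X]) : 0 ≤ mx1 f 1 := by
  unfold mx1
  apply intervalIntegral.integral_nonneg zero_le_one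
  intro t _
  apply Real.log_nonneg
  rw [Pool.Agent.H261R2.CM.ev1_one, norm_one]
  exact le_max_right _ _

/-- irreducible compressible polynomials -/
theorem gap_irreducible : ∃ c : ℝ, 0 < c ∧ ∀ (z H : ℕ) (f : ℤ[X]), Computes z f → 1 ≤ H →
    (∀ t, |f.coeff t| ≤ H) → Irreducible f → 1 < m1 f →
    Real.exp (c / (1 + z + Real.log H) ^ 3) ≤ m1 f := by
  obtain ⟨c, hc, h⟩ := Pool.Agent.Results.MP_7ab245_nt.LogPlusMean.result
  have hL : 1 ≤ Real.log 16 := by
    have h1 : Real.log 8 ≤ Real.log 16 := Real.log_le_log (by norm_num) (by norm_num)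
    have h2 : Real.log 8 = 3 * Real.log 2 := by
      rw [show (8:ℝ) = 2 ^ 3 by norm_num, Real.log_pow]; norm_num
    have := Real.log_two_gt_d9
    linarith
  refine ⟨c / Real.log 16 ^ 3, by positivity, ?_⟩
  intro z H f hz hH hf hirr hM
  have h1 := h f hirr hM
  refine le_trans (Real.exp_le_exp.mpr ?_) h1
  rw [circleAverage_posLog]
  have h2 := logPlus_le hz hirr.ne_zero hH hf
  have h3 := mx1_nonneg f
  have hH1 : (1:ℝ) ≤ H := by exact_mod_cast hH
  have hlH : 0 ≤ Real.log H := Real.log_nonneg hH1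
  have hz0 : (0:ℝ) ≤ z := Nat.cast_nonneg z
  rw [div_div]
  have h4 : 1 + mx1 f 1 ≤ Real.log 16 * (1 + z + Real.log H) := by nlinarith
  have h5 : (1 + mx1 f 1) ^ 3 ≤ Real.log 16 ^ 3 * (1 + z + Real.log H) ^ 3 := by
    rw [← mul_pow]
    exact pow_le_pow_left₀ (by linarith) h4 3
  have h6 : 0 < (1 + mx1 f 1) ^ 3 := by positivity
  gcongr

end Pool.Agent.H723.LZM
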