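import Pool.Agent.H723.LZM.Core

/-!
# Copy and paste programs for integer polynomials

Words with integer letters are identified with integer polynomials (coefficient sequences).  A
program starts with the zero word; every instruction writes, on top of an earlier word, either a
letter, or an integer multiple of a periodic word whose period is a factor of an earlier word (up to
the sign of the successive periods), or an integer multiple of a reversed factor of an earlier word.

Main result (`prog_sparse`): if `f` is computed with `z` instructions, there is a product `D` of at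
most `z` polynomials `1 - s X ^ d` such that `D f` has at most `6 ^ z` terms.
-/

set_option autoImplicit false

namespace Pool.Agent.H723.LZM

open Polynomial Finset

/-- The first `l` letters of the word with period `d` and sign `s` whose first `d` letters are those
of `Q` from position `i` on, written from position `n` on. -/
noncomputable def per (Q : ℤ[X]) (i d l n : ℕ) (s : ℤ) : ℤ[X] :=
  ∑ t ∈ range l, monomial (n + t) (s ^ (t / d) * Q.coeff (i + t % d))

/-- The `l` letters of `Q` from position `i` on, in the reverse order, written from position `n`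
on. -/
noncomputable def bwd (Q : ℤ[X]) (i l n : ℕ) : ℤ[X] :=
  ∑ t ∈ range l, monomial (n + t) (Q.coeff (i + (l - 1 - t)))

/-- Copy and paste programs. -/
inductive Program : List ℤ[X] → Prop
  | start : Program [0]
  | letter (L : List ℤ[X]) (P : ℤ[X]) (c : ℤ) (n : ℕ) : Program L → P ∈ L →
      Program ((P + monomial n c) :: L)
  | copy (L : List ℤ[X]) (P Q : ℤ[X]) (c s : ℤ) (i d l n : ℕ) : Program L → P ∈ L → Q ∈ L →
      1 ≤ d → (s = 1 ∨ s = -1) → Program ((P + C c * per Q i d l n s) :: L)
  | reverse (L : List ℤ[X]) (P Q : ℤ[X]) (c : ℤ) (i l n : ℕ) : Program L → P ∈ L → Q ∈ L →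
      Program ((P + C c * bwd Q i l n) :: L)

/-- `f` is computed by a program with `z` instructions. -/
def Computes (z : ℕ) (f : ℤ[X]) : Prop := ∃ L : List ℤ[X], Program L ∧ L.length = z + 1 ∧ f ∈ L

lemma coeff_per (Q : ℤ[X]) (i d l n : ℕ) (s : ℤ) (e : ℕ) : (per Q i d l n s).coeff e =
    if n ≤ e ∧ e < n + l then s ^ ((e - n) / d) * Q.coeff (i + (e - n) % d) else 0 := by
  unfold per
  rw [finsetSum_coeff]
  simp only [coeff_monomial]
  split_ifs with h
  · rw [Finset.sum_eq_single (e - n)]
    · rw [if_pos (by omega)]
    · intro b _ hb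
      rw [if_neg (by omega)]
    · intro h2
      rw [Finset.mem_range] at h2
      omega
  · apply Finset.sum_eq_zero
    intro t ht
    rw [Finset.mem_range] at ht
    rw [if_neg (by omega)]

lemma coeff_bwd (Q : ℤ[X]) (i l n : ℕ) (e : ℕ) : (bwd Q i l n).coeff e =
    if n ≤ e ∧ e < n + l then Q.coeff (i + (l - 1 - (e - n))) else 0 := by
  unfold bwd
  rw [finsetSum_coeff]
  simp only [coeff_monomial]
  split_ifs with h
  · rw [Finset.sum_eq_single (e - n)]
    · rw [if_pos (by omega)]
    · intro b _ hb
      rw [if_neg (by omega)]
    · intro h2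
      rw [Finset.mem_range] at h2
      omega
  · apply Finset.sum_eq_zero
    intro t ht
    rw [Finset.mem_range] at ht
    rw [if_neg (by omega)]

lemma win_add (i j : ℕ) (P Q : ℤ[X]) : win i j (P + Q) = win i j P + win i j Q := by
  ext t
  rw [coeff_add, coeff_win, coeff_win, coeff_win]
  split_ifs
  · rw [coeff_add]
  · rw [add_zero]

lemma win_C_mul (i j : ℕ) (c : ℤ) (P : ℤ[X]) : win i j (C c * P) = C c * win i j P := by
  ext t
  rw [coeff_C_mul, coeff_win, coeff_win]
  split_ifs
  · rw [coeff_C_mul]
  · rw [mul_zero]

lemma nt_X_pow_mul (d : ℕ) (p : ℤ[X]) : nt (X ^ d * p) = nt p := by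
  apply le_antisymm (nt_X_pow_mul_le d p)
  unfold nt
  apply Finset.card_le_card_of_injOn (fun t => t + d)
  · intro t ht
    rw [Finset.mem_coe, mem_support_iff] at ht ⊢
    rwa [coeff_X_pow_mul]
  · intro a _ b _ h
    simpa using h

/-- windows of a piece that is read forwards -/
lemma forward_window {D Q W : ℤ[X]} {T : ℕ} (hQ : ∀ i j, nt (D * win i j Q) ≤ T) (i n x y : ℕ)
    (hx : n ≤ x) (h : ∀ e, x ≤ e → e < y → W.coeff e = Q.coeff (i + (e - n))) :
    nt (D * win x y W) ≤ T := by
  by_cases hxy : y ≤ x
  · rw [win_of_le hxy, mul_zero, nt_zero]; exact Nat.zero_le _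
  push Not at hxy
  have e1 : X ^ i * win x y W = X ^ n * win (i + (x - n)) (i + (y - n)) Q := by
    ext e
    rw [coeff_X_pow_mul', coeff_X_pow_mul']
    by_cases h1 : i + x ≤ e ∧ e < i + y
    · rw [if_pos (by omega), if_pos (by omega), coeff_win, coeff_win, if_pos (by omega),
        if_pos (by omega), h (e - i) (by omega) (by omega)]
      congr 1
      omega
    · have h2 : (if i ≤ e then (win x y W).coeff (e - i) else 0) = 0 := by
        split_ifs
        · rw [coeff_win, if_neg (by omega)]
        · rfl
      have h3 : (if n ≤ e then (win (i + (x - n)) (i + (y - n)) Q).coeff (e - n) else 0) = 0 := by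
        split_ifs
        · rw [coeff_win, if_neg (by omega)]
        · rfl
      rw [h2, h3]
  have e2 : nt (D * win x y W) = nt (D * win (i + (x - n)) (i + (y - n)) Q) := by
    rw [← nt_X_pow_mul i (D * win x y W), ← nt_X_pow_mul n (D * win (i + (x - n)) (i + (y - n)) Q)]
    congr 1
    calc X ^ i * (D * win x y W) = D * (X ^ i * win x y W) := by ring
      _ = D * (X ^ n * win (i + (x - n)) (i + (y - n)) Q) := by rw [e1]
      _ = X ^ n * (D * win (i + (x - n)) (i + (y - n)) Q) := by ring
  rw [e2]
  exact hQ _ _

lemma per_windows {D Q : ℤ[X]} {T : ℕ} (hQ : ∀ i j, nt (D * win i j Q) ≤ T) (i d l n : ℕ) {s : ℤ}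
    (hd : 1 ≤ d) : ∀ x y, nt (D * cyc d s * win x y (per Q i d l n s)) ≤ 6 * T := by
  set W := per Q i d l n s with hW
  -- the first period
  have hbase : ∀ x y, y ≤ n + d → nt (D * win x y W) ≤ T := by
    intro x y hy
    have e : win x y W = win (max x n) (min y (n + l)) W := by
      ext e
      rw [coeff_win, coeff_win]
      by_cases h1 : x ≤ e ∧ e < y
      · rw [if_pos h1]
        by_cases h2 : max x n ≤ e ∧ e < min y (n + l)
        · rw [if_pos h2]
        · rw [if_neg h2, hW, coeff_per, if_neg (by omega)]
      · rw [if_neg h1, if_neg (by omega)]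
    rw [e]
    apply forward_window hQ i n _ _ (le_max_right _ _)
    intro e h1 h2
    have h3 : e - n < d := by omega
    rw [hW, coeff_per, if_pos (by omega), Nat.div_eq_of_lt h3, Nat.mod_eq_of_lt h3, pow_zero,
      one_mul]
  have hrep : ∀ t, n + d ≤ t → t < n + l → W.coeff t = s * W.coeff (t - d) := by
    intro t h1 h2
    rw [hW, coeff_per, coeff_per, if_pos (by omega), if_pos (by omega)]
    have e1 : (t - n) / d = (t - d - n) / d + 1 := by
      rw [show t - n = (t - d - n) + d by omega, Nat.add_div_right _ (by omega)]
    have e2 : (t - n) % d = (t - d - n) % d := by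
      rw [show t - n = (t - d - n) + d by omega, Nat.add_mod_right]
    rw [e1, e2, pow_succ]
    ring
  by_cases hl : l ≤ d
  · -- a single, possibly incomplete period
    intro x y
    have e : win x y W = win x (min y (n + d)) W := by
      ext e
      rw [coeff_win, coeff_win]
      by_cases h1 : x ≤ e ∧ e < y
      · rw [if_pos h1]
        by_cases h2 : x ≤ e ∧ e < min y (n + d)
        · rw [if_pos h2]
        · rw [if_neg h2, hW, coeff_per, if_neg (by omega)]
      · rw [if_neg h1, if_neg (by omega)]
    rw [e, show D * cyc d s * win x (min y (n + d)) W = cyc d s * (D * win x (min y (n + d)) W) by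
      ring]
    refine (nt_mul_le _ _).trans ?_
    have h1 := hbase x (min y (n + d)) (min_le_right _ _)
    calc nt (cyc d s) * nt (D * win x (min y (n + d)) W) ≤ 2 * T :=
          Nat.mul_le_mul (nt_cyc_le _ _) h1
      _ ≤ 6 * T := by omega
  · push Not at hl
    intro x y
    have e : win x y W = win x (min y (n + l)) W := by
      ext e
      rw [coeff_win, coeff_win]
      by_cases h1 : x ≤ e ∧ e < y
      · rw [if_pos h1]
        by_cases h2 : x ≤ e ∧ e < min y (n + l)
        · rw [if_pos h2]
        · rw [if_neg h2, hW, coeff_per, if_neg (by omega)]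
      · rw [if_neg h1, if_neg (by omega)]
    rw [e]
    exact copy_phrase (f := W) (D := D) (n := n + d) (n' := n + l) (d := d) (T := T) (s := s) hd
      (by omega) (fun x y h => hbase x y h) (fun t h1 h2 => hrep t h1 h2) x _ (min_le_right _ _)

lemma bwd_windows {r : ℕ} {D Q : ℤ[X]} {T : ℕ} (hD : Cyc r D)
    (hQ : ∀ i j, nt (D * win i j Q) ≤ T) (i l n : ℕ) :
    ∀ x y, nt (D * win x y (bwd Q i l n)) ≤ T := by
  obtain ⟨e, ε, he, hε, hDe⟩ := hD.reflect_eq
  intro x y
  by_cases hl : l = 0
  · subst hl
    have : bwd Q i 0 n = 0 := by unfold bwd; simp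
    rw [this]
    have : win x y (0 : ℤ[X]) = 0 := by ext t; rw [coeff_win]; simp
    rw [this, mul_zero, nt_zero]
    exact Nat.zero_le _
  by_cases hxy : min y (n + l) ≤ max x n
  · have e1 : win x y (bwd Q i l n) = 0 := by
      ext t
      rw [coeff_win, coeff_zero]
      split_ifs with h1
      · rw [coeff_bwd, if_neg (by omega)]
      · rfl
    rw [e1, mul_zero, nt_zero]
    exact Nat.zero_le _
  push Not at hxy
  set b := n + i + l - 1 with hb
  set lo := b + 1 - min y (n + l) with hlo
  set hi := b + 1 - max x n with hhi
  have e1 : win x y (bwd Q i l n) = reflect b (win lo hi Q) := by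
    ext t
    rw [coeff_reflect, coeff_win]
    by_cases htb : t ≤ b
    · rw [revAt_le htb, coeff_win, coeff_bwd]
      by_cases h1 : max x n ≤ t ∧ t < min y (n + l)
      · rw [if_pos (by omega), if_pos (by omega), if_pos (by omega)]
        congr 1
        omega
      · by_cases h2 : x ≤ t ∧ t < y
        · rw [if_pos h2, if_neg (by omega), if_neg (by omega)]
        · rw [if_neg h2, if_neg (by omega)]
    · rw [revAt_eq_self_of_lt (by omega), coeff_win, coeff_bwd, if_neg (by omega : ¬ (lo ≤ t ∧ t < hi))]
      split_ifs with h1 h2
      · omega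
      · rfl
      · rfl
  have hw : (win lo hi Q).natDegree ≤ b := natDegree_win_lt _ _ (by omega)
  have e2 : D * win x y (bwd Q i l n) = C ε * reflect (e + b) (D * win lo hi Q) := by
    rw [reflect_mul D _ he hw, e1]
    conv_lhs => rw [hDe]
    ring
  rw [e2]
  refine (nt_C_mul_le _ _).trans ?_
  rw [nt_reflect]
  exact hQ _ _

/-- the invariant along a program -/
lemma program_sparse {L : List ℤ[X]} (h : Program L) :
    ∃ r, r + 1 ≤ L.length ∧ ∃ D : ℤ[X], Cyc r D ∧
      ∀ P ∈ L, ∀ i j, nt (D * win i j P) ≤ 8 ^ (L.length - 1) := by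
  induction h with
  | start =>
    refine ⟨0, by simp, 1, Cyc.one, ?_⟩
    intro P hP i j
    rw [List.mem_singleton] at hP
    subst hP
    have : win i j (0 : ℤ[X]) = 0 := by ext t; rw [coeff_win]; simp
    rw [this, mul_zero, nt_zero]
    exact Nat.zero_le _
  | letter L P c n _ hP ih =>
    obtain ⟨r, hr, D, hD, hT⟩ := ih
    have hlen : 1 ≤ L.length := by omega
    have hpow : 8 ^ ((((P + monomial n c) :: L).length) - 1) = 8 * 8 ^ (L.length - 1) := by
      rw [List.length_cons, Nat.add_sub_cancel, ← pow_succ']
      congr 1
      omega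
    rw [hpow]
    have h2r : (2:ℕ) ^ r ≤ 8 ^ (L.length - 1) :=
      (Nat.pow_le_pow_right (by norm_num) (by omega : r ≤ L.length - 1)).trans
        (Nat.pow_le_pow_left (by norm_num) _)
    refine ⟨r, by rw [List.length_cons]; omega, D, hD, ?_⟩
    intro R hR i j
    rcases List.mem_cons.mp hR with rfl | hR
    · rw [win_add, mul_add]
      refine (nt_add_le _ _).trans ?_
      have h1 := hT P hP i j
      have h2 : nt (D * win i j (monomial n c)) ≤ 2 ^ r := by
        have h3 : nt (win i j (monomial n c)) ≤ 1 := by
          have : win i j (monomial n c) = monomial n (if i ≤ n ∧ n < j then c else 0) := by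
            ext t
            rw [coeff_win, coeff_monomial, coeff_monomial]
            split_ifs with h1 h2 h3 h3 <;> first | rfl | omega
          rw [this]
          exact nt_monomial_le _ _
        calc nt (D * win i j (monomial n c)) ≤ nt D * nt (win i j (monomial n c)) := nt_mul_le _ _
          _ ≤ 2 ^ r * 1 := Nat.mul_le_mul hD.nt_le h3
          _ = 2 ^ r := mul_one _
      omega
    · have h1 := hT R hR i j
      omega
  | copy L P Q c s i d l n _ hP hQ hd hs ih =>
    obtain ⟨r, hr, D, hD, hT⟩ := ih
    have hlen : 1 ≤ L.length := by omega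
    have hpow : 8 ^ ((((P + C c * per Q i d l n s) :: L).length) - 1) = 8 * 8 ^ (L.length - 1) := by
      rw [List.length_cons, Nat.add_sub_cancel, ← pow_succ']
      congr 1
      omega
    rw [hpow]
    -- windows of words of the old program
    have hold : ∀ R ∈ L, ∀ x y, nt (D * cyc d s * win x y R) ≤ 2 * 8 ^ (L.length - 1) := by
      intro R hR x y
      rw [show D * cyc d s * win x y R = cyc d s * (D * win x y R) by ring]
      exact (nt_mul_le _ _).trans (Nat.mul_le_mul (nt_cyc_le _ _) (hT R hR x y))
    refine ⟨r + 1, by rw [List.length_cons]; omega, D * cyc d s, Cyc.mul r D d s hd hs hD, ?_⟩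
    intro R hR x y
    rcases List.mem_cons.mp hR with rfl | hR
    · rw [win_add, win_C_mul, mul_add]
      refine (nt_add_le _ _).trans ?_
      have h1 := hold P hP x y
      have h2 : nt (D * cyc d s * (C c * win x y (per Q i d l n s))) ≤ 6 * 8 ^ (L.length - 1) := by
        rw [show D * cyc d s * (C c * win x y (per Q i d l n s)) =
          C c * (D * cyc d s * win x y (per Q i d l n s)) by ring]
        exact (nt_C_mul_le _ _).trans (per_windows (hT Q hQ) i d l n hd x y)
      omega
    · have h1 := hold R hR x y
      omega
  | reverse L P Q c i l n _ hP hQ ih =>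
    obtain ⟨r, hr, D, hD, hT⟩ := ih
    have hlen : 1 ≤ L.length := by omega
    have hpow : 8 ^ ((((P + C c * bwd Q i l n) :: L).length) - 1) = 8 * 8 ^ (L.length - 1) := by
      rw [List.length_cons, Nat.add_sub_cancel, ← pow_succ']
      congr 1
      omega
    rw [hpow]
    refine ⟨r, by rw [List.length_cons]; omega, D, hD, ?_⟩
    intro R hR x y
    rcases List.mem_cons.mp hR with rfl | hR
    · rw [win_add, win_C_mul, mul_add]
      refine (nt_add_le _ _).trans ?_
      have h1 := hT P hP x y
      have h2 : nt (D * (C c * win x y (bwd Q i l n))) ≤ 8 ^ (L.length - 1) := by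
        rw [show D * (C c * win x y (bwd Q i l n)) = C c * (D * win x y (bwd Q i l n)) by ring]
        exact (nt_C_mul_le _ _).trans (bwd_windows hD (hT Q hQ) i l n x y)
      omega
    · have h1 := hT R hR x y
      omega

/-- a polynomial is a window of itself -/
lemma win_self (f : ℤ[X]) : win 0 (f.natDegree + 1) f = f := by
  ext t
  rw [coeff_win]
  by_cases ht : t < f.natDegree + 1
  · rw [if_pos ⟨Nat.zero_le _, ht⟩]
  · rw [if_neg (by omega), coeff_eq_zero_of_natDegree_lt (by omega)]

/-- **Compressible polynomials have sparse multiples.** -/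
theorem prog_sparse {z : ℕ} {f : ℤ[X]} (h : Computes z f) :
    ∃ r ≤ z, ∃ D : ℤ[X], Cyc r D ∧ nt (D * f) ≤ 8 ^ z := by
  obtain ⟨L, hL, hlen, hf⟩ := h
  obtain ⟨r, hr, D, hD, hT⟩ := program_sparse hL
  refine ⟨r, by omega, D, hD, ?_⟩
  have h1 := hT f hf 0 (f.natDegree + 1)
  rw [win_self, hlen, Nat.add_sub_cancel] at h1
  exact h1

/-- the copied phrases of a Lempel-Ziv parse are periodic continuations -/
lemma phrase_per {a : ℕ → ℤ} {d m n : ℕ} {s : ℤ} (hd : 1 ≤ d) (hdm : d ≤ m)
    (h : ∀ t, m ≤ t → t < n → a t = s * a (t - d)) :
    ∀ t, m + t < n → a (m + t) = s * (s ^ (t / d) * a (m - d + t % d)) := by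
  intro t
  induction t using Nat.strong_induction_on with
  | _ t ih =>
    intro ht
    by_cases h1 : t < d
    · rw [Nat.div_eq_of_lt h1, Nat.mod_eq_of_lt h1, pow_zero, one_mul, h (m + t) (by omega) ht]
      congr 2
      omega
    · push Not at h1
      have h2 := ih (t - d) (by omega) (by omega)
      have e1 : t / d = (t - d) / d + 1 := by
        conv_lhs => rw [show t = (t - d) + d by omega, Nat.add_div_right _ (by omega)]
      have e2 : t % d = (t - d) % d := by
        conv_lhs => rw [show t = (t - d) + d by omega, Nat.add_mod_right]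
      rw [h (m + t) (by omega) ht, show m + t - d = m + (t - d) by omega, h2, e1, e2, pow_succ]
      ring

/-- a Lempel-Ziv parse with `z` phrases is a program with `z` instructions -/
theorem LZ.computes {z : ℕ} {f : ℤ[X]} (h : LZ z f) : Computes z f := by
  obtain ⟨p, hp0, hp, hz⟩ := h
  have key : ∀ m ≤ z, ∃ L : List ℤ[X], Program L ∧ L.length = m + 1 ∧ win 0 (p m) f ∈ L := by
    intro m
    induction m with
    | zero =>
      intro _
      refine ⟨[0], Program.start, rfl, ?_⟩
      rw [hp0, win_of_le le_rfl]
      simp
    | succ m ih =>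
      intro hm
      obtain ⟨L, hL, hlen, hmem⟩ := ih (by omega)
      obtain ⟨hle, hph⟩ := hp m (by omega)
      rcases hph with h1 | ⟨d, s, hd1, hdm, hs, h1⟩ | ⟨b, s, hs, h1⟩
      · refine ⟨_, Program.letter L _ (if p (m + 1) = p m then 0 else f.coeff (p m)) (p m) hL hmem,
          by rw [List.length_cons, hlen], ?_⟩
        rw [List.mem_cons]
        left
        ext t
        rw [coeff_add, coeff_win, coeff_win, coeff_monomial]
        by_cases e1 : p (m + 1) = p m
        · rw [if_pos e1, e1]
          simp
        · rw [if_neg e1]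
          have e2 : p (m + 1) = p m + 1 := by omega
          rw [e2]
          by_cases ht : t = p m
          · subst ht
            rw [if_pos ⟨Nat.zero_le _, Nat.lt_succ_self _⟩, if_neg (by omega), if_pos rfl,
              zero_add]
          · rw [if_neg (Ne.symm ht), add_zero]
            by_cases ht2 : t < p m
            · rw [if_pos (by omega), if_pos (by omega)]
            · rw [if_neg (by omega), if_neg (by omega)]
      · refine ⟨_, Program.copy L _ _ s s (p m - d) d (p (m + 1) - p m) (p m) hL hmem hmem hd1 hs,
          by rw [List.length_cons, hlen], ?_⟩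
        rw [List.mem_cons]
        left
        ext t
        rw [coeff_add, coeff_win, coeff_win, coeff_C_mul, coeff_per]
        by_cases ht : t < p m
        · rw [if_pos (by omega), if_pos (by omega), if_neg (by omega), mul_zero, add_zero]
        · by_cases ht2 : t < p (m + 1)
          · rw [if_pos (by omega), if_neg (by omega), if_pos (by omega), zero_add]
            have h2 := phrase_per hd1 hdm h1 (t - p m) (by omega)
            rw [show p m + (t - p m) = t by omega] at h2
            rw [h2, coeff_win, if_pos]
            constructor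
            · exact Nat.zero_le _
            · have := Nat.mod_lt (t - p m) (by omega : 0 < d)
              omega
          · rw [if_neg (by omega), if_neg (by omega), if_neg (by omega), mul_zero, add_zero]
      · by_cases he : p (m + 1) = p m
        · refine ⟨_, Program.letter L _ 0 0 hL hmem, by rw [List.length_cons, hlen], ?_⟩
          rw [List.mem_cons]
          left
          rw [he]
          simp
        · have hb1 := h1 (p (m + 1) - 1) (by omega) (by omega)
          have hb2 := h1 (p m) le_rfl (by omega)
          refine ⟨_, Program.reverse L _ _ s (b + 1 - p (m + 1)) (p (m + 1) - p m) (p m) hL hmem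
            hmem, by rw [List.length_cons, hlen], ?_⟩
          rw [List.mem_cons]
          left
          ext t
          rw [coeff_add, coeff_win, coeff_win, coeff_C_mul, coeff_bwd]
          by_cases ht : t < p m
          · rw [if_pos (by omega), if_pos (by omega), if_neg (by omega), mul_zero, add_zero]
          · by_cases ht2 : t < p (m + 1)
            · rw [if_pos (by omega), if_neg (by omega), if_pos (by omega), zero_add]
              rw [(h1 t (by omega) ht2).2.2, coeff_win, if_pos (by omega)]
              congr 2
              omega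
            · rw [if_neg (by omega), if_neg (by omega), if_neg (by omega), mul_zero, add_zero]
  obtain ⟨L, hL, hlen, hmem⟩ := key z le_rfl
  refine ⟨L, hL, hlen, ?_⟩
  have e : win 0 (p z) f = f := by
    ext t
    rw [coeff_win]
    by_cases ht : t < p z
    · rw [if_pos ⟨Nat.zero_le _, ht⟩]
    · rw [if_neg (by omega), hz t (by omega)]
  rwa [e] at hmem

end Pool.Agent.H723.LZM
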